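import Pool.Agent.R488.TM

/-!
# Block structure of the twisted Fibonacci sequence (MP_e68cb8_nt)
-/

set_option autoImplicit false

namespace Pool.Agent.Run7.h771.TMQ

open Pool.Agent.R488.TM

/-- the solution of the twisted recursion with the values `y`, `x` at `-2`, `-1` (index shifted
by two) -/
def G (x y : ℤ) : ℕ → ℤ
  | 0 => y
  | 1 => x
  | m + 2 => t m * G x y (m + 1) + G x y m

lemma G_rec (x y : ℤ) (m : ℕ) : G x y (m + 2) = t m * G x y (m + 1) + G x y m := rfl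

lemma t1 : t 1 = -1 := by simpa [t_zero] using t_odd 0
lemma t2 : t 2 = -1 := by have := t_even 1; simpa [t1] using this
lemma t3 : t 3 = 1 := by have := t_odd 1; simpa [t1] using this

lemma G_h : ∀ m : ℕ, G 1 (-1) (m + 2) = h m
  | 0 => by
    show t 0 * 1 + (-1) = 0
    rw [t_zero]; norm_num
  | 1 => by
    show t 1 * (t 0 * 1 + (-1)) + 1 = 1
    rw [t_zero]; norm_num
  | m + 2 => by
    show t (m + 2) * G 1 (-1) (m + 1 + 2) + G 1 (-1) (m + 2) = t (m + 2) * h (m + 1) + h m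
    rw [G_h (m + 1), G_h m]

lemma G_lin (x y : ℤ) : ∀ m : ℕ, G x y m = G 1 0 m * x + G 0 1 m * y
  | 0 => by simp [G]
  | 1 => by simp [G]
  | m + 2 => by
    have h1 := G_lin x y (m + 1)
    have h2 := G_lin x y m
    rw [G_rec x y, G_rec 1 0, G_rec 0 1, h1, h2]; ring

lemma block (K n : ℕ) (x y : ℤ) : ∀ j : ℕ, j ≤ 2 ^ K + 1 →
    t n ^ j * G x y (2 ^ K * n + j) = G (t n * G x y (2 ^ K * n + 1)) (G x y (2 ^ K * n)) j
  | 0, _ => by simp [G]
  | 1, _ => by simp [G]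
  | j + 2, hj => by
    have h1 := block K n x y j (by omega)
    have h2 := block K n x y (j + 1) (by omega)
    have ht : t (2 ^ K * n + j) = t n * t j := t_add K n j (by omega)
    have hs : t n * t n = 1 := t_sq n
    rw [G_rec (t n * G x y (2 ^ K * n + 1)), ← h1, ← h2]
    have hG : G x y (2 ^ K * n + (j + 2)) =
        t (2 ^ K * n + j) * G x y (2 ^ K * n + (j + 1)) + G x y (2 ^ K * n + j) := rfl
    rw [hG, ht]
    linear_combination (t j * t n ^ (j + 1) * G x y (2 ^ K * n + (j + 1)) +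
      t n ^ j * G x y (2 ^ K * n + j)) * hs

structure Inv (k : ℕ) (a b c : ℤ) : Prop where
  ha : 0 < a
  hab : a ≤ b
  hc : 0 < c - 2 * b + a
  det : a * c - b ^ 2 = 1
  hY : ∀ x y, G x y (2 ^ (2 * k)) = b * x + c * y
  hX : ∀ x y, G x y (2 ^ (2 * k) + 1) = a * x + b * y

lemma even_pow_t (k n : ℕ) (hk : 1 ≤ k) : t n ^ (2 ^ (2 * k)) = 1 := by
  obtain ⟨j, rfl⟩ : ∃ j, k = j + 1 := ⟨k - 1, by omega⟩
  have : 2 ^ (2 * (j + 1)) = 2 * 2 ^ (2 * j + 1) := by ring
  rw [this, pow_mul, pow_two, t_sq, one_pow]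

lemma step {k : ℕ} (hk : 1 ≤ k) {a b c : ℤ} (H : Inv k a b c) (x y : ℤ) (n : ℕ) :
    G x y (2 ^ (2 * k) * (n + 1)) =
      b * (t n * G x y (2 ^ (2 * k) * n + 1)) + c * G x y (2 ^ (2 * k) * n) ∧
    t n * G x y (2 ^ (2 * k) * (n + 1) + 1) =
      a * (t n * G x y (2 ^ (2 * k) * n + 1)) + b * G x y (2 ^ (2 * k) * n) := by
  have h1 := block (2 * k) n x y (2 ^ (2 * k)) (by omega)
  have h2 := block (2 * k) n x y (2 ^ (2 * k) + 1) le_rfl
  rw [even_pow_t k n hk, one_mul, H.hY] at h1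
  rw [pow_succ, even_pow_t k n hk, one_mul, H.hX] at h2
  constructor
  · rw [mul_add, mul_one]; exact h1
  · rw [mul_add, mul_one, add_assoc]; exact h2

lemma inv_one : Inv 1 1 1 2 where
  ha := by norm_num
  hab := by norm_num
  hc := by norm_num
  det := by norm_num
  hY := by
    intro x y
    show t 2 * (t 1 * (t 0 * x + y) + x) + (t 0 * x + y) = 1 * x + 2 * y
    rw [t_zero, t1, t2]; ring
  hX := by
    intro x y
    show t 3 * (t 2 * (t 1 * (t 0 * x + y) + x) + (t 0 * x + y)) + (t 1 * (t 0 * x + y) + x) =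
      1 * x + 1 * y
    rw [t_zero, t1, t2, t3]; ring

lemma inv_succ {k : ℕ} (hk : 1 ≤ k) {a b c : ℤ} (H : Inv k a b c) :
    Inv (k + 1) ((b ^ 2 - a ^ 2) ^ 2 + (b * (c - a)) ^ 2)
      (b * (c - a) * ((b ^ 2 - a ^ 2) + (c ^ 2 - b ^ 2)))
      ((b * (c - a)) ^ 2 + (c ^ 2 - b ^ 2) ^ 2) := by
  have ha := H.ha
  have hab := H.hab
  have hc := H.hc
  have hb : 0 < b := by omega
  have hca : 0 < c - a := by omega
  have hcb : b - a < c - b := by omega
  have hα : 0 ≤ b ^ 2 - a ^ 2 := by nlinarith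
  have hβ : 0 < b * (c - a) := mul_pos hb hca
  have hαβ : b ^ 2 - a ^ 2 ≤ b * (c - a) := by nlinarith
  have hβγ : b * (c - a) < c ^ 2 - b ^ 2 := by nlinarith
  have hL : 2 ^ (2 * (k + 1)) = 2 ^ (2 * k) * (3 + 1) := by ring
  have key : ∀ x y, G x y (2 ^ (2 * k) * (3 + 1)) =
      (b * (c - a) * ((b ^ 2 - a ^ 2) + (c ^ 2 - b ^ 2))) * x +
        ((b * (c - a)) ^ 2 + (c ^ 2 - b ^ 2) ^ 2) * y ∧
      G x y (2 ^ (2 * k) * (3 + 1) + 1) = ((b ^ 2 - a ^ 2) ^ 2 + (b * (c - a)) ^ 2) * x +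
        (b * (c - a) * ((b ^ 2 - a ^ 2) + (c ^ 2 - b ^ 2))) * y := by
    intro x y
    obtain ⟨e0, f0⟩ := step hk H x y 0
    obtain ⟨e1, f1⟩ := step hk H x y 1
    obtain ⟨e2, f2⟩ := step hk H x y 2
    obtain ⟨e3, f3⟩ := step hk H x y 3
    have z0 : G x y (2 ^ (2 * k) * 0) = y := rfl
    have z1 : G x y (2 ^ (2 * k) * 0 + 1) = x := rfl
    rw [z0, z1, t_zero] at e0 f0
    rw [t1] at e1 f1
    rw [t2] at e2 f2
    rw [t3] at e3 f3
    norm_num only at e0 f0 e1 f1 e2 f2 e3 f3 ⊢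
    have g1 : G x y (2 ^ (2 * k) * 1 + 1) = a * x + b * y := by linarith
    have y1 : G x y (2 ^ (2 * k) * 1) = b * x + c * y := by linarith
    rw [g1, y1] at e1 f1
    have g2 : G x y (2 ^ (2 * k) * 2 + 1) = a * (a * x + b * y) - b * (b * x + c * y) := by
      linarith
    rw [g2, e1] at e2 f2
    have g3 : G x y (2 ^ (2 * k) * 3 + 1) =
        a * (a * (a * x + b * y) - b * (b * x + c * y)) -
          b * (b * (-1 * (a * x + b * y)) + c * (b * x + c * y)) := by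
      linarith
    rw [g3, e2] at e3 f3
    constructor
    · rw [e3]; ring
    · have f3' := f3
      rw [one_mul] at f3'
      rw [f3']; ring
  exact {
    ha := by nlinarith
    hab := by nlinarith
    hc := by nlinarith [sq_nonneg (b * (c - a) - (b ^ 2 - a ^ 2)),
      mul_pos (sub_pos.2 hβγ) (sub_pos.2 hβγ)]
    det := by
      have h1 : (a * c - b ^ 2) ^ 4 = 1 := by rw [H.det]; norm_num
      rw [← h1]; ring
    hY := by intro x y; rw [hL]; exact (key x y).1
    hX := by intro x y; rw [hL]; exact (key x y).2 }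

lemma inv_exists (k : ℕ) (hk : 1 ≤ k) : ∃ a b c, Inv k a b c := by
  induction k, hk using Nat.le_induction with
  | base => exact ⟨1, 1, 2, inv_one⟩
  | succ k hk ih =>
    obtain ⟨a, b, c, H⟩ := ih
    exact ⟨_, _, _, inv_succ hk H⟩

lemma inv_two : Inv 2 1 3 10 := by simpa using inv_succ le_rfl inv_one

lemma inv_three : Inv 3 793 2673 9010 := by simpa using inv_succ (by norm_num) inv_two

/-- no three consecutive equal signs -/
lemma no_three (m : ℕ) (h1 : t (m + 2) * t (m + 1) = 1) : t (m + 1) * t m = -1 := by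
  rcases Nat.even_or_odd' m with ⟨u, rfl | rfl⟩
  · rw [t_odd, t_even]
    linear_combination -t_sq u
  · exfalso
    have e1 : 2 * u + 1 + 2 = 2 * (u + 1) + 1 := by ring
    have e2 : 2 * u + 1 + 1 = 2 * (u + 1) := by ring
    rw [e1, e2, t_odd, t_even] at h1
    have := t_sq (u + 1)
    linarith

end Pool.Agent.Run7.h771.TMQ
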