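import Pool.Agent.R488.TM

/-!
# The constants of the refinement (MP_e68cb8_nt, Q2)

`h` and `t` (the Prouhet-Thue-Morse sequence `t n = (-1) ^ s₂(n)`; `h 0 = 0`, `h 1 = 1`,
`h (n + 2) = t (n + 2) * h (n + 1) + h n`) are those of `Pool.Agent.R488.TM`.
-/

set_option autoImplicit false

namespace Pool.Agent.Run7.h771.TMQ

open Pool.Agent.R488.TM Filter

/-- `ρ n = |h n| / |h (n - 1)|` -/
def rho (n : ℕ) : ℚ := |(h n : ℚ)| / |(h (n - 1) : ℚ)|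

/-- the lower limit of `ρ (2 ^ k n + i + 1)` for `n → ∞`, the constant of the problem file -/
noncomputable def Clim (k i : ℕ) : ℝ :=
  liminf (fun n : ℕ => (rho (2 ^ k * n + i + 1) : ℝ)) atTop

/-- the infimum of `ρ (2 ^ k n + i + 1)` over all `n` with `2 ^ k n + i ≥ 4`, that is, the largest
constant `C` with `|h (2 ^ k n + i + 1)| ≥ C |h (2 ^ k n + i)|` for all these `n` -/
noncomputable def Cinf (k i : ℕ) : ℝ :=
  sInf {x : ℝ | ∃ n : ℕ, 4 ≤ 2 ^ k * n + i ∧ x = (rho (2 ^ k * n + i + 1) : ℝ)}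

/-- all the claims of the refinement Q2, for given constants `C k i` -/
def QTwo (C : ℕ → ℕ → ℝ) : Prop :=
  (∀ k i : ℕ, 1 ≤ k → i < 2 ^ k → (∃ r : ℚ, C k i = r) ∧
    ∀ n : ℕ, 4 ≤ 2 ^ k * n + i →
      C k i * |(h (2 ^ k * n + i) : ℝ)| ≤ |(h (2 ^ k * n + i + 1) : ℝ)|) ∧
  (∀ k : ℕ, 1 ≤ k → C (2 * k) 0 = C (2 * k + 1) 0) ∧
  C 1 0 = 2 / 7 ∧ (C 2 0 = 2 / 3 ∧ C 3 0 = 2 / 3) ∧ (C 4 0 = 64 / 83 ∧ C 5 0 = 64 / 83) ∧
  (C 6 0 = 52071130 / 67519091 ∧ C 7 0 = 52071130 / 67519091)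

end Pool.Agent.Run7.h771.TMQ
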