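import Pool.Agent.Run7.h771.TMQ.Dyn
import Pool.Agent.Run7.h771.TMQ.Defs

/-!
# The terms of a block as linear forms, and the ratios (MP_e68cb8_nt)
-/

set_option autoImplicit false

namespace Pool.Agent.Run7.h771.TMQ

open Pool.Agent.R488.TM

lemma four (x y : ℤ) (n : ℕ) : G x y (4 * (n + 1)) = t n * G x y (4 * n + 1) + 2 * G x y (4 * n) ∧
    G x y (4 * (n + 1) + 1) = G x y (4 * n + 1) + t n * G x y (4 * n) ∧
    G x y (4 * n + 2) = t n * G x y (4 * n + 1) + G x y (4 * n) ∧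
    G x y (4 * n + 3) = -(t n * G x y (4 * n)) := by
  have h4 : (2 : ℕ) ^ (2 * 1) = 4 := by norm_num
  obtain ⟨e, f⟩ := step le_rfl inv_one x y n
  rw [h4] at e f
  have hs := t_sq n
  have e2 : G x y (4 * n + 2) = t n * G x y (4 * n + 1) + G x y (4 * n) := by
    rw [G_rec, t4]
  refine ⟨by rw [e]; ring, ?_, e2, ?_⟩
  · linear_combination t n * f + (G x y (4 * n + 1) - G x y (4 * (n + 1) + 1)) * hs
  · have e3 : G x y (4 * n + 3) = t (4 * n + 1) * G x y (4 * n + 2) + G x y (4 * n + 1) := rfl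
    rw [e3, t41, e2]
    linear_combination -(G x y (4 * n + 1)) * hs

/-- the cone of the linear forms -/
def Cn (P Q : ℤ) : Prop := 0 ≤ P ∧ 2 * P ≤ Q ∧ 1 ≤ Q

lemma cn_main (n : ℕ) : Cn (G 1 0 (4 * (n + 1))) (G 0 1 (4 * (n + 1))) ∧
    Cn (t (n + 1) * G 1 0 (4 * (n + 1) + 1) + G 1 0 (4 * (n + 1)))
      (t (n + 1) * G 0 1 (4 * (n + 1) + 1) + G 0 1 (4 * (n + 1))) := by
  induction n with
  | zero =>
    have a1 : G 1 0 (4 * (0 + 1)) = 1 := by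
      rw [(four 1 0 0).1, t_zero]; rfl
    have a2 : G 0 1 (4 * (0 + 1)) = 2 := by
      rw [(four 0 1 0).1, t_zero]; rfl
    have a3 : G 1 0 (4 * (0 + 1) + 1) = 1 := by
      rw [(four 1 0 0).2.1, t_zero]; rfl
    have a4 : G 0 1 (4 * (0 + 1) + 1) = 1 := by
      rw [(four 0 1 0).2.1, t_zero]; rfl
    rw [a1, a2, a3, a4]
    have : t (0 + 1) = -1 := t1
    rw [this]
    unfold Cn
    norm_num
  | succ n ih =>
    obtain ⟨⟨a1, a2, a3⟩, b1, b2, b3⟩ := ih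
    have e := (four 1 0 (n + 1)).1
    have f := (four 0 1 (n + 1)).1
    have e' := (four 1 0 (n + 1)).2.1
    have f' := (four 0 1 (n + 1)).2.1
    have ee : t (n + 1 + 1) * G 1 0 (4 * (n + 1 + 1) + 1) = (t (n + 1 + 1) * t (n + 1)) *
        (t (n + 1) * G 1 0 (4 * (n + 1) + 1) + G 1 0 (4 * (n + 1))) := by
      rw [e']
      linear_combination (-(t (n + 1 + 1) * G 1 0 (4 * (n + 1) + 1))) * t_sq (n + 1)
    have ff : t (n + 1 + 1) * G 0 1 (4 * (n + 1 + 1) + 1) = (t (n + 1 + 1) * t (n + 1)) *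
        (t (n + 1) * G 0 1 (4 * (n + 1) + 1) + G 0 1 (4 * (n + 1))) := by
      rw [f']
      linear_combination (-(t (n + 1 + 1) * G 0 1 (4 * (n + 1) + 1))) * t_sq (n + 1)
    rw [ee, ff, e, f]
    unfold Cn
    rcases tt_cases (n + 1 + 1) (n + 1) with h | h <;> rw [h] <;>
      refine ⟨⟨?_, ?_, ?_⟩, ?_, ?_, ?_⟩ <;> linarith

lemma cone (m : ℕ) (hm : 2 ≤ m) : ∃ ε : ℤ, (ε = 1 ∨ ε = -1) ∧ 0 ≤ ε * G 1 0 m ∧
    ε * G 1 0 m ≤ ε * G 0 1 m ∧ 1 ≤ ε * G 0 1 m ∧ (6 ≤ m → 2 * (ε * G 1 0 m) ≤ ε * G 0 1 m) := by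
  have big : ∀ m : ℕ, (∃ ε : ℤ, (ε = 1 ∨ ε = -1) ∧ Cn (ε * G 1 0 m) (ε * G 0 1 m)) →
      ∃ ε : ℤ, (ε = 1 ∨ ε = -1) ∧ 0 ≤ ε * G 1 0 m ∧
      ε * G 1 0 m ≤ ε * G 0 1 m ∧ 1 ≤ ε * G 0 1 m ∧
      (6 ≤ m → 2 * (ε * G 1 0 m) ≤ ε * G 0 1 m) := by
    rintro m ⟨ε, he, h1, h2, h3⟩
    exact ⟨ε, he, h1, by linarith, h3, fun _ => h2⟩
  obtain ⟨n, r, hr, rfl⟩ : ∃ n r, r < 4 ∧ m = 4 * n + r :=
    ⟨m / 4, m % 4, Nat.mod_lt _ (by norm_num), (Nat.div_add_mod m 4).symm⟩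
  have hr' : r = 0 ∨ r = 1 ∨ r = 2 ∨ r = 3 := by omega
  rcases hr' with rfl | rfl | rfl | rfl
  · obtain ⟨u, rfl⟩ : ∃ u, n = u + 1 := ⟨n - 1, by omega⟩
    apply big
    refine ⟨1, Or.inl rfl, ?_⟩
    rw [one_mul, one_mul]
    exact (cn_main u).1
  · obtain ⟨u, rfl⟩ : ∃ u, n = u + 1 := ⟨n - 1, by omega⟩
    rcases Nat.eq_zero_or_pos u with rfl | hu
    · have a3 : G 1 0 (4 * (0 + 1) + 1) = 1 := by
        rw [(four 1 0 0).2.1, t_zero]; rfl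
      have a4 : G 0 1 (4 * (0 + 1) + 1) = 1 := by
        rw [(four 0 1 0).2.1, t_zero]; rfl
      refine ⟨1, Or.inl rfl, ?_⟩
      rw [a3, a4]
      norm_num
    · obtain ⟨v, rfl⟩ : ∃ v, u = v + 1 := ⟨u - 1, by omega⟩
      apply big
      refine ⟨t (v + 1), t_cases _, ?_⟩
      rw [(four 1 0 (v + 1)).2.1, (four 0 1 (v + 1)).2.1]
      have h := (cn_main v).2
      have e1 : t (v + 1) * (G 1 0 (4 * (v + 1) + 1) + t (v + 1) * G 1 0 (4 * (v + 1))) =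
          t (v + 1) * G 1 0 (4 * (v + 1) + 1) + G 1 0 (4 * (v + 1)) := by
        linear_combination (G 1 0 (4 * (v + 1))) * t_sq (v + 1)
      have e2 : t (v + 1) * (G 0 1 (4 * (v + 1) + 1) + t (v + 1) * G 0 1 (4 * (v + 1))) =
          t (v + 1) * G 0 1 (4 * (v + 1) + 1) + G 0 1 (4 * (v + 1)) := by
        linear_combination (G 0 1 (4 * (v + 1))) * t_sq (v + 1)
      rw [e1, e2]
      exact h
  · rcases Nat.eq_zero_or_pos n with rfl | hn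
    · have a3 : G 1 0 (4 * 0 + 2) = 1 := by
        rw [(four 1 0 0).2.2.1, t_zero]; rfl
      have a4 : G 0 1 (4 * 0 + 2) = 1 := by
        rw [(four 0 1 0).2.2.1, t_zero]; rfl
      refine ⟨1, Or.inl rfl, ?_⟩
      rw [a3, a4]
      norm_num
    · obtain ⟨u, rfl⟩ : ∃ u, n = u + 1 := ⟨n - 1, by omega⟩
      apply big
      refine ⟨1, Or.inl rfl, ?_⟩
      rw [one_mul, one_mul, (four 1 0 (u + 1)).2.2.1, (four 0 1 (u + 1)).2.2.1]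
      exact (cn_main u).2
  · apply big
    refine ⟨-t n, ?_, ?_⟩
    · rcases t_cases n with h | h
      · right; rw [h]
      · left; rw [h]; norm_num
    · rw [(four 1 0 n).2.2.2, (four 0 1 n).2.2.2]
      have e1 : -t n * -(t n * G 1 0 (4 * n)) = G 1 0 (4 * n) := by
        linear_combination (G 1 0 (4 * n)) * t_sq n
      have e2 : -t n * -(t n * G 0 1 (4 * n)) = G 0 1 (4 * n) := by
        linear_combination (G 0 1 (4 * n)) * t_sq n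
      rw [e1, e2]
      rcases Nat.eq_zero_or_pos n with rfl | hn
      · have a1 : G 1 0 (4 * 0) = 0 := rfl
        have a2 : G 0 1 (4 * 0) = 1 := rfl
        rw [a1, a2]
        unfold Cn
        norm_num
      · obtain ⟨u, rfl⟩ : ∃ u, n = u + 1 := ⟨n - 1, by omega⟩
        exact (cn_main u).1

lemma cone' (m : ℕ) (hm : 2 ≤ m) : ∃ p q : ℚ, 0 ≤ p ∧ p ≤ q ∧ 1 ≤ q ∧ (6 ≤ m → 2 * p ≤ q) ∧
    ∀ s : ℚ, -1 ≤ s → |(G 1 0 m : ℚ) * s + (G 0 1 m : ℚ)| = p * s + q := by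
  obtain ⟨ε, he, h1, h2, h3, h4⟩ := cone m hm
  have h1' : (0 : ℚ) ≤ ((ε * G 1 0 m : ℤ) : ℚ) := by exact_mod_cast h1
  have h2' : ((ε * G 1 0 m : ℤ) : ℚ) ≤ ((ε * G 0 1 m : ℤ) : ℚ) := by exact_mod_cast h2
  have h3' : (1 : ℚ) ≤ ((ε * G 0 1 m : ℤ) : ℚ) := by exact_mod_cast h3
  refine ⟨((ε * G 1 0 m : ℤ) : ℚ), ((ε * G 0 1 m : ℤ) : ℚ), h1', h2', h3', ?_, ?_⟩
  · intro h6
    exact_mod_cast h4 h6
  · intro s hs
    have hp : 0 ≤ ((ε * G 1 0 m : ℤ) : ℚ) * s + ((ε * G 0 1 m : ℤ) : ℚ) := by nlinarith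
    rw [← abs_of_nonneg hp]
    rcases he with rfl | rfl
    · push_cast; congr 1; ring
    · push_cast
      rw [← abs_neg]; congr 1; ring

/-- `h n ≠ 0` for `n ≥ 4` -/
lemma h_ne (n : ℕ) (hn : 4 ≤ n) : h n ≠ 0 := by
  obtain ⟨m, r, hr, rfl⟩ : ∃ m r, r < 4 ∧ n = 4 * m + r :=
    ⟨n / 4, n % 4, Nat.mod_lt _ (by norm_num), (Nat.div_add_mod n 4).symm⟩
  obtain ⟨h0, h1, h2, h3⟩ := h_values m
  obtain ⟨p1, p2, p3, p4⟩ := XY_pos m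
  have p5 := p4 (by omega)
  obtain ⟨q1, q2, q3, q4⟩ := XY_pos (m + 1)
  have hr' : r = 0 ∨ r = 1 ∨ r = 2 ∨ r = 3 := by omega
  rcases hr' with rfl | rfl | rfl | rfl
  · rw [Nat.add_zero, h0]; omega
  · rw [h1]; rcases t_cases m with h | h <;> rw [h] <;> omega
  · rw [h2]; omega
  · rw [h3]; rcases t_cases m with h | h <;> rw [h] <;> omega

lemma absG {k : ℕ} (hk : 1 ≤ k) (n m : ℕ) (hm : m ≤ 2 ^ (2 * k) + 1) :
    |(G 1 (-1) (2 ^ (2 * k) * n + m) : ℚ)| = |(G 1 (-1) (2 ^ (2 * k) * n) : ℚ)| *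
      |(G 1 0 m : ℚ) * sig k n + (G 0 1 m : ℚ)| := by
  obtain ⟨a, b, c, H⟩ := inv_exists k hk
  have hn := (dyn hk H).2 n
  have hn' : ((G 1 (-1) (2 ^ (2 * k) * n) : ℤ) : ℚ) ≠ 0 := by exact_mod_cast hn
  have h1 := block (2 * k) n 1 (-1) m hm
  rw [G_lin (t n * G 1 (-1) (2 ^ (2 * k) * n + 1))] at h1
  have hX : ((t n * G 1 (-1) (2 ^ (2 * k) * n + 1) : ℤ) : ℚ) =
      sig k n * ((G 1 (-1) (2 ^ (2 * k) * n) : ℤ) : ℚ) := by
    unfold sig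
    rw [div_mul_cancel₀ _ hn']
  have h2 : ((t n : ℚ) ^ m) * (G 1 (-1) (2 ^ (2 * k) * n + m) : ℚ) =
      (G 1 (-1) (2 ^ (2 * k) * n) : ℚ) * ((G 1 0 m : ℚ) * sig k n + (G 0 1 m : ℚ)) := by
    have h3 : ((t n ^ m * G 1 (-1) (2 ^ (2 * k) * n + m) : ℤ) : ℚ) =
        ((G 1 0 m * (t n * G 1 (-1) (2 ^ (2 * k) * n + 1)) +
          G 0 1 m * G 1 (-1) (2 ^ (2 * k) * n) : ℤ) : ℚ) := by exact_mod_cast h1
    push_cast at h3 hX
    rw [h3, hX]; ring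
  have h4 : |(t n : ℚ)| = 1 := by
    rcases t_cases n with h | h <;> rw [h] <;> norm_num
  have h5 := congrArg abs h2
  rw [abs_mul, abs_mul, abs_pow, h4, one_pow, one_mul] at h5
  exact h5

lemma rho_block {k : ℕ} (hk : 1 ≤ k) (n i : ℕ) (hi : i + 3 ≤ 2 ^ (2 * k) + 1) :
    rho (2 ^ (2 * k) * n + i + 1) =
      |(G 1 0 (i + 3) : ℚ) * sig k n + (G 0 1 (i + 3) : ℚ)| /
        |(G 1 0 (i + 2) : ℚ) * sig k n + (G 0 1 (i + 2) : ℚ)| := by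
  obtain ⟨a, b, c, H⟩ := inv_exists k hk
  have hn := (dyn hk H).2 n
  have hn' : |((G 1 (-1) (2 ^ (2 * k) * n) : ℤ) : ℚ)| ≠ 0 := abs_ne_zero.2 (by exact_mod_cast hn)
  unfold rho
  rw [Nat.add_sub_cancel, ← G_h, ← G_h]
  have e1 : 2 ^ (2 * k) * n + i + 1 + 2 = 2 ^ (2 * k) * n + (i + 3) := by ring
  have e2 : 2 ^ (2 * k) * n + i + 2 = 2 ^ (2 * k) * n + (i + 2) := by ring
  rw [e1, e2, absG hk n (i + 3) hi, absG hk n (i + 2) (by omega), mul_div_mul_left _ _ hn']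

lemma rho_last {k : ℕ} (hk : 1 ≤ k) (n : ℕ) :
    rho (2 ^ (2 * k) * (n + 1)) = |sig k (n + 1) + 1| / |sig k (n + 1)| := by
  obtain ⟨a, b, c, H⟩ := inv_exists k hk
  have hn := (dyn hk H).2 (n + 1)
  have hn' : |((G 1 (-1) (2 ^ (2 * k) * (n + 1)) : ℤ) : ℚ)| ≠ 0 :=
    abs_ne_zero.2 (by exact_mod_cast hn)
  have hL : 0 < 2 ^ (2 * k) := by positivity
  unfold rho
  have e2 : 2 ^ (2 * k) * (n + 1) - 1 + 2 = 2 ^ (2 * k) * (n + 1) + 1 := by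
    have : 0 < 2 ^ (2 * k) * (n + 1) := by positivity
    omega
  rw [← G_h, ← G_h, e2, absG hk (n + 1) 2 (by omega), absG hk (n + 1) 1 (by omega),
    mul_div_mul_left _ _ hn']
  have g1 : G 1 0 1 = 1 := rfl
  have g2 : G 0 1 1 = 0 := rfl
  have g3 : G 1 0 2 = 1 := by
    show t 0 * 1 + 0 = 1
    rw [t_zero]; norm_num
  have g4 : G 0 1 2 = 1 := by
    show t 0 * 0 + 1 = 1
    norm_num
  rw [g1, g2, g3, g4]
  push_cast
  rw [one_mul, add_zero]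

end Pool.Agent.Run7.h771.TMQ
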