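import Pool.Agent.Run7.h771.TMQ.Blocks

/-!
# The slopes of the blocks (MP_e68cb8_nt)
-/

set_option autoImplicit false

namespace Pool.Agent.Run7.h771.TMQ

open Pool.Agent.R488.TM

/-- the slope at the beginning of the block `n` of length `4 ^ k` -/
def sig (k n : ℕ) : ℚ :=
  ((t n * G 1 (-1) (2 ^ (2 * k) * n + 1) : ℤ) : ℚ) / ((G 1 (-1) (2 ^ (2 * k) * n) : ℤ) : ℚ)

/-- the Moebius map of the block -/
def gg (a b c s : ℚ) : ℚ := (a * s + b) / (b * s + c)

section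

variable {a b c : ℚ} (ha : 0 < a) (hab : a ≤ b) (hc : 0 < c - 2 * b + a) (hd : a * c - b ^ 2 = 1)

include ha hab hc in
lemma den_pos {s : ℚ} (h1 : -1 ≤ s) : 0 < b * s + c := by nlinarith

include ha hab hc in
lemma gg_nonneg {s : ℚ} (h1 : -1 ≤ s) : 0 ≤ gg a b c s :=
  div_nonneg (by nlinarith) (den_pos ha hab hc h1).le

include ha hab hc in
lemma gg_lt_one {s : ℚ} (h1 : -1 ≤ s) (h2 : s ≤ 1) : gg a b c s < 1 := by
  have := den_pos ha hab hc h1
  unfold gg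
  rw [div_lt_one this]
  nlinarith

include ha hab hc hd in
lemma gg_mono {s s' : ℚ} (h1 : -1 ≤ s) (h : s ≤ s') : gg a b c s ≤ gg a b c s' := by
  have e1 := den_pos ha hab hc h1
  have e2 := den_pos ha hab hc (h1.trans h)
  unfold gg
  rw [div_le_div_iff₀ e1 e2]
  have : (a * c - b ^ 2) * (s' - s) = s' - s := by rw [hd, one_mul]
  nlinarith

include ha hab hc hd in
lemma gg_lt {s s' : ℚ} (h1 : -1 ≤ s) (h : s < s') : gg a b c s < gg a b c s' := by
  have e1 := den_pos ha hab hc h1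
  have e2 := den_pos ha hab hc (h1.trans h.le)
  unfold gg
  rw [div_lt_div_iff₀ e1 e2]
  have : (a * c - b ^ 2) * (s' - s) = s' - s := by rw [hd, one_mul]
  nlinarith

end

/-- the dynamics of the slopes -/
structure Dyn (a b c : ℚ) (σ : ℕ → ℚ) : Prop where
  ha : 0 < a
  hab : a ≤ b
  hc : 0 < c - 2 * b + a
  hd : a * c - b ^ 2 = 1
  h0 : σ 0 = -1
  hs : ∀ n, σ (n + 1) = ((t (n + 1) * t n : ℤ) : ℚ) * gg a b c (σ n)

namespace Dyn

variable {a b c : ℚ} {σ : ℕ → ℚ} (D : Dyn a b c σ)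

include D

lemma nn {s : ℚ} (h1 : -1 ≤ s) : 0 ≤ gg a b c s := gg_nonneg D.ha D.hab D.hc h1
lemma lt1 {s : ℚ} (h1 : -1 ≤ s) (h2 : s ≤ 1) : gg a b c s < 1 := gg_lt_one D.ha D.hab D.hc h1 h2
lemma mono {s s' : ℚ} (h1 : -1 ≤ s) (h : s ≤ s') : gg a b c s ≤ gg a b c s' :=
  gg_mono D.ha D.hab D.hc D.hd h1 h
lemma smono {s s' : ℚ} (h1 : -1 ≤ s) (h : s < s') : gg a b c s < gg a b c s' :=
  gg_lt D.ha D.hab D.hc D.hd h1 h

lemma mem (n : ℕ) : -1 ≤ σ n ∧ σ n ≤ 1 := by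
  induction n with
  | zero => rw [D.h0]; norm_num
  | succ n ih =>
    have h1 := D.nn ih.1
    have h2 := D.lt1 ih.1 ih.2
    rw [D.hs]
    rcases tt_cases (n + 1) n with h | h <;> rw [h] <;> push_cast <;> constructor <;> linarith

lemma pm (n : ℕ) : (t (n + 1) * t n = 1 ∧ σ (n + 1) = gg a b c (σ n)) ∨
    (t (n + 1) * t n = -1 ∧ σ (n + 1) = -gg a b c (σ n)) := by
  have e := D.hs n
  rcases tt_cases (n + 1) n with h | h
  · refine Or.inl ⟨h, ?_⟩
    rw [e, h]; push_cast; exact one_mul _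
  · refine Or.inr ⟨h, ?_⟩
    rw [e, h]; push_cast; ring

lemma gt (n : ℕ) (hn : 1 ≤ n) : -1 < σ n := by
  obtain ⟨m, rfl⟩ : ∃ m, n = m + 1 := ⟨n - 1, by omega⟩
  have h1 := D.nn (D.mem m).1
  have h2 := D.lt1 (D.mem m).1 (D.mem m).2
  rcases D.pm m with h | h <;> rw [h.2] <;> linarith

lemma s1 : σ 1 = -gg a b c (-1) := by
  rcases D.pm 0 with h | h
  · exfalso; have := h.1; rw [zero_add, t1, t_zero] at this; norm_num at this
  · rw [zero_add, D.h0] at h; exact h.2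

lemma s2 : σ 2 = gg a b c (σ 1) := by
  rcases D.pm 1 with h | h
  · exact h.2
  · exfalso; have := h.1; norm_num only at this; rw [t2, t1] at this; norm_num at this

lemma s3 : σ 3 = -gg a b c (σ 2) := by
  rcases D.pm 2 with h | h
  · exfalso; have := h.1; norm_num only at this; rw [t3, t2] at this; norm_num at this
  · exact h.2

/-- the largest slope is that of the block `2` -/
lemma le2 (n : ℕ) (hn : 1 ≤ n) : σ n ≤ σ 2 := by
  have h2 : 0 ≤ σ 2 := by rw [D.s2]; exact D.nn (D.mem 1).1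
  obtain ⟨m, rfl⟩ : ∃ m, n = m + 1 := ⟨n - 1, by omega⟩
  rcases D.pm m with h | h
  · rcases Nat.eq_zero_or_pos m with rfl | hm
    · exfalso; have := h.1; rw [zero_add, t1, t_zero] at this; norm_num at this
    · obtain ⟨u, rfl⟩ : ∃ u, m = u + 1 := ⟨m - 1, by omega⟩
      have h3 := no_three u h.1
      rcases D.pm u with h4 | h4
      · exfalso; rw [h4.1] at h3; norm_num at h3
      · rw [h.2, D.s2, h4.2, D.s1]
        have e1 := D.mono (le_refl (-1)) (D.mem u).1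
        exact D.mono (by linarith [D.lt1 (D.mem u).1 (D.mem u).2]) (by linarith)
  · rw [h.2]; linarith [D.nn (D.mem m).1]

/-- the smallest slope of a block after the first one is that of the block `3` -/
lemma ge3 (n : ℕ) (hn : 1 ≤ n) : σ 3 ≤ σ n := by
  obtain ⟨m, rfl⟩ : ∃ m, n = m + 1 := ⟨n - 1, by omega⟩
  have h1 : gg a b c (σ m) ≤ gg a b c (σ 2) := by
    rcases Nat.eq_zero_or_pos m with rfl | hm
    · exact D.mono (D.mem 0).1 (by rw [D.h0]; exact (D.mem 2).1)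
    · exact D.mono (D.mem m).1 (D.le2 m hm)
  have h0 := D.nn (D.mem m).1
  rw [D.s3]
  rcases D.pm m with h | h <;> rw [h.2] <;> linarith

/-- the slopes of the blocks from `3` on -/
lemma le2' (n : ℕ) (hn : 3 ≤ n) : σ n ≤ gg a b c (-gg a b c (σ 3)) := by
  have hg := D.lt1 (D.mem 3).1 (D.mem 3).2
  have hg0 : 0 ≤ gg a b c (-gg a b c (σ 3)) := D.nn (by linarith)
  obtain ⟨m, rfl⟩ : ∃ m, n = m + 2 := ⟨n - 2, by omega⟩
  rcases D.pm (m + 1) with h | h
  · have h3 := no_three m h.1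
    rcases D.pm m with h4 | h4
    · exfalso; rw [h4.1] at h3; norm_num at h3
    · rw [h.2, h4.2]
      have e1 := D.mono (D.mem 3).1 (D.ge3 m (by omega))
      exact D.mono (by linarith [D.lt1 (D.mem m).1 (D.mem m).2]) (by linarith)
  · rw [h.2]; linarith [D.nn (D.mem (m + 1)).1]

lemma lt2 : gg a b c (-gg a b c (σ 3)) < σ 2 := by
  rw [D.s2, D.s1]
  have e1 := D.smono (le_refl (-1)) (D.gt 3 (by norm_num))
  exact D.smono (by linarith [D.lt1 (D.mem 3).1 (D.mem 3).2]) (by linarith)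

lemma ge3' (n : ℕ) (hn : 4 ≤ n) : -gg a b c (gg a b c (-gg a b c (σ 3))) ≤ σ n := by
  obtain ⟨m, rfl⟩ : ∃ m, n = m + 1 := ⟨n - 1, by omega⟩
  have h1 := D.mono (D.mem m).1 (D.le2' m (by omega))
  have h0 := D.nn (D.mem m).1
  rcases D.pm m with h | h <;> rw [h.2] <;> linarith

lemma s23 : σ 2 ≤ -σ 3 := by
  rw [D.s3, neg_neg]
  have h2 : 0 ≤ σ 2 := by rw [D.s2]; exact D.nn (D.mem 1).1
  have h1 : σ 1 ≤ 0 := by rw [D.s1]; linarith [D.nn (le_refl (-1))]
  conv_lhs => rw [D.s2]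
  exact D.mono (D.mem 1).1 (by linarith)

end Dyn

/-- the slopes obey the dynamics -/
lemma dyn {k : ℕ} (hk : 1 ≤ k) {a b c : ℤ} (H : Inv k a b c) :
    Dyn (a : ℚ) b c (sig k) ∧ ∀ n, G 1 (-1) (2 ^ (2 * k) * n) ≠ 0 := by
  have ha : (0 : ℚ) < a := by exact_mod_cast H.ha
  have hab : (a : ℚ) ≤ b := by exact_mod_cast H.hab
  have hc : (0 : ℚ) < c - 2 * b + a := by exact_mod_cast H.hc
  have hd : (a : ℚ) * c - b ^ 2 = 1 := by exact_mod_cast H.det
  have h0 : sig k 0 = -1 := by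
    have z0 : G 1 (-1) (2 ^ (2 * k) * 0) = -1 := rfl
    have z1 : G 1 (-1) (2 ^ (2 * k) * 0 + 1) = 1 := rfl
    unfold sig
    rw [z0, z1, t_zero]; norm_num
  have hrc : ∀ n, G 1 (-1) (2 ^ (2 * k) * n) ≠ 0 → -1 ≤ sig k n →
      G 1 (-1) (2 ^ (2 * k) * (n + 1)) ≠ 0 ∧
      sig k (n + 1) = ((t (n + 1) * t n : ℤ) : ℚ) * gg a b c (sig k n) := by
    intro n hn hs
    obtain ⟨e, f⟩ := step hk H 1 (-1) n
    have hd := den_pos ha hab hc hs
    have hn' : ((G 1 (-1) (2 ^ (2 * k) * n) : ℤ) : ℚ) ≠ 0 := by exact_mod_cast hn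
    have hX : ((t n * G 1 (-1) (2 ^ (2 * k) * n + 1) : ℤ) : ℚ) =
        sig k n * ((G 1 (-1) (2 ^ (2 * k) * n) : ℤ) : ℚ) := by
      unfold sig
      rw [div_mul_cancel₀ _ hn']
    have e' : ((G 1 (-1) (2 ^ (2 * k) * (n + 1)) : ℤ) : ℚ) =
        (b * sig k n + c) * ((G 1 (-1) (2 ^ (2 * k) * n) : ℤ) : ℚ) := by
      rw [e]; push_cast; push_cast at hX; rw [hX]; ring
    have f' : ((t (n + 1) * G 1 (-1) (2 ^ (2 * k) * (n + 1) + 1) : ℤ) : ℚ) =
        ((t (n + 1) * t n : ℤ) : ℚ) * (a * sig k n + b) *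
          ((G 1 (-1) (2 ^ (2 * k) * n) : ℤ) : ℚ) := by
      have f1 : t (n + 1) * G 1 (-1) (2 ^ (2 * k) * (n + 1) + 1) = t (n + 1) * t n *
          (t n * G 1 (-1) (2 ^ (2 * k) * (n + 1) + 1)) := by
        linear_combination (-(t (n + 1) * G 1 (-1) (2 ^ (2 * k) * (n + 1) + 1))) * t_sq n
      rw [f1, f]; push_cast; push_cast at hX; rw [hX]; ring
    constructor
    · intro h
      rw [h] at e'
      push_cast at e'
      rcases mul_eq_zero.1 e'.symm with h1 | h1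
      · exact hd.ne' h1
      · exact hn' h1
    · have hne := hd.ne'
      conv_lhs => unfold sig
      rw [e', f']
      unfold gg
      field_simp
  have main : ∀ n, G 1 (-1) (2 ^ (2 * k) * n) ≠ 0 ∧ -1 ≤ sig k n ∧ sig k n ≤ 1 := by
    intro n
    induction n with
    | zero =>
      refine ⟨?_, ?_, ?_⟩
      · have z0 : G 1 (-1) (2 ^ (2 * k) * 0) = -1 := rfl
        rw [z0]; norm_num
      · rw [h0]
      · rw [h0]; norm_num
    | succ n ih =>
      obtain ⟨h1, h2⟩ := hrc n ih.1 ih.2.1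
      have g1 := gg_nonneg ha hab hc ih.2.1
      have g2 := gg_lt_one ha hab hc ih.2.1 ih.2.2
      refine ⟨h1, ?_⟩
      rw [h2]
      rcases tt_cases (n + 1) n with h | h <;> rw [h] <;> push_cast <;> constructor <;> linarith
  exact ⟨⟨ha, hab, hc, hd, h0, fun n => (hrc n (main n).1 (main n).2.1).2⟩, fun n => (main n).1⟩

end Pool.Agent.Run7.h771.TMQ
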