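import Pool.Agent.Run7.h771.TMQ.Cone

/-!
# The infima are attained (MP_e68cb8_nt)
-/

set_option autoImplicit false

namespace Pool.Agent.Run7.h771.TMQ

open Pool.Agent.R488.TM Filter

lemma mob_inc {p q p' q' s s' : ℚ} (h : 0 ≤ p' * q - p * q') (hs : s ≤ s')
    (d : 0 < p * s + q) (d' : 0 < p * s' + q) :
    (p' * s + q') / (p * s + q) ≤ (p' * s' + q') / (p * s' + q) := by
  rw [div_le_div_iff₀ d d']
  nlinarith [mul_nonneg h (sub_nonneg.2 hs)]

lemma mob_dec {p q p' q' s s' : ℚ} (h : p' * q - p * q' ≤ 0) (hs : s ≤ s')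
    (d : 0 < p * s + q) (d' : 0 < p * s' + q) :
    (p' * s' + q') / (p * s' + q) ≤ (p' * s + q') / (p * s + q) := by
  rw [div_le_div_iff₀ d' d]
  nlinarith [mul_nonneg (neg_nonneg.2 h) (sub_nonneg.2 hs)]

lemma four_le {k : ℕ} (hk : 1 ≤ k) : 4 ≤ 2 ^ (2 * k) := by
  calc 4 = 2 ^ (2 * 1) := by norm_num
    _ ≤ 2 ^ (2 * k) := Nat.pow_le_pow_right (by norm_num) (by omega)

lemma sig_ne {k : ℕ} (hk : 1 ≤ k) (n : ℕ) (hn : 5 ≤ 2 ^ (2 * k) * n) : sig k n ≠ 0 := by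
  obtain ⟨a, b, c, H⟩ := inv_exists k hk
  have h1 := (dyn hk H).2 n
  have h2 := absG hk n 1 (Nat.le_add_left 1 _)
  have g1 : G 1 0 1 = 1 := rfl
  have g2 : G 0 1 1 = 0 := rfl
  rw [g1, g2] at h2
  intro h0
  rw [h0] at h2
  push_cast at h2
  rw [mul_zero, add_zero, abs_zero, mul_zero, abs_eq_zero] at h2
  have e2 : 2 ^ (2 * k) * n - 1 + 2 = 2 ^ (2 * k) * n + 1 := by omega
  have h3 := h_ne (2 ^ (2 * k) * n - 1) (by omega)
  rw [← G_h, e2] at h3
  exact h3 (by exact_mod_cast h2)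

lemma least_even {k : ℕ} (hk : 1 ≤ k) (i : ℕ) (hi : i < 2 ^ (2 * k)) :
    ∃ N, 4 ≤ 2 ^ (2 * k) * N + i ∧ ∀ n, 4 ≤ 2 ^ (2 * k) * n + i →
      rho (2 ^ (2 * k) * N + i + 1) ≤ rho (2 ^ (2 * k) * n + i + 1) := by
  obtain ⟨a, b, c, H⟩ := inv_exists k hk
  obtain ⟨D, -⟩ := dyn hk H
  have hL := four_le hk
  by_cases hi3 : i + 3 ≤ 2 ^ (2 * k) + 1
  · obtain ⟨p, q, hp, hpq, hq, h6, hF⟩ := cone' (i + 2) (by omega)
    obtain ⟨p', q', -, -, -, -, hF'⟩ := cone' (i + 3) (by omega)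
    have hr : ∀ n, rho (2 ^ (2 * k) * n + i + 1) =
        (p' * sig k n + q') / (p * sig k n + q) := by
      intro n
      rw [rho_block hk n i hi3, hF _ (D.mem n).1, hF' _ (D.mem n).1]
    have den : ∀ n, 4 ≤ 2 ^ (2 * k) * n + i → 0 < p * sig k n + q := by
      intro n hn
      by_cases h4 : 4 ≤ i
      · have := h6 (by omega)
        nlinarith [(D.mem n).1, mul_nonneg hp (by linarith [(D.mem n).1] : 0 ≤ sig k n + 1)]
      · have hn1 : 1 ≤ n := by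
          rcases Nat.eq_zero_or_pos n with rfl | h
          · omega
          · exact h
        have h1 := D.gt n hn1
        rcases hp.eq_or_lt with h | h
        · rw [← h, zero_mul, zero_add]; linarith
        · have := mul_pos h (by linarith : 0 < sig k n + 1)
          nlinarith
    by_cases hD : 0 ≤ p' * q - p * q'
    · by_cases h4 : 4 ≤ i
      · have hN : 4 ≤ 2 ^ (2 * k) * 0 + i := by omega
        refine ⟨0, hN, fun n hn => ?_⟩
        rw [hr 0, hr n]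
        exact mob_inc hD (by rw [D.h0]; exact (D.mem n).1) (den 0 hN) (den n hn)
      · have hN : 4 ≤ 2 ^ (2 * k) * 3 + i := by omega
        refine ⟨3, hN, fun n hn => ?_⟩
        have hn1 : 1 ≤ n := by
          rcases Nat.eq_zero_or_pos n with rfl | h
          · omega
          · exact h
        rw [hr 3, hr n]
        exact mob_inc hD (D.ge3 n hn1) (den 3 hN) (den n hn)
    · have hN : 4 ≤ 2 ^ (2 * k) * 2 + i := by omega
      refine ⟨2, hN, fun n hn => ?_⟩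
      have hle : sig k n ≤ sig k 2 := by
        rcases Nat.eq_zero_or_pos n with rfl | h
        · rw [D.h0]; exact (D.mem 2).1
        · exact D.le2 n h
      rw [hr 2, hr n]
      exact mob_dec (not_le.1 hD).le hle (den n hn) (den 2 hN)
  · have hi1 : i + 1 = 2 ^ (2 * k) := by omega
    have hr : ∀ n, 2 ^ (2 * k) * n + i + 1 = 2 ^ (2 * k) * (n + 1) := by
      intro n; rw [add_assoc, hi1]; ring
    refine ⟨2, by omega, fun n hn => ?_⟩
    rw [hr 2, hr n, rho_last hk 2, rho_last hk n]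
    have hn5 : 5 ≤ 2 ^ (2 * k) * (n + 1) := by rw [← hr n]; omega
    have h3 : sig k (2 + 1) ≠ 0 := sig_ne hk 3 (by omega)
    have h0 := sig_ne hk (n + 1) hn5
    have h30 : sig k (2 + 1) ≤ 0 := by
      show sig k 3 ≤ 0
      rw [D.s3]; linarith [D.nn (D.mem 2).1]
    have h3n : sig k (2 + 1) < 0 := lt_of_le_of_ne h30 h3
    have h3g : -1 < sig k (2 + 1) := D.gt 3 (by norm_num)
    have hng : -1 < sig k (n + 1) := D.gt (n + 1) (by omega)
    have hge : sig k (2 + 1) ≤ sig k (n + 1) := D.ge3 (n + 1) (by omega)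
    have hle : sig k (n + 1) ≤ sig k 2 := D.le2 (n + 1) (by omega)
    have h23 : sig k 2 ≤ -sig k (2 + 1) := D.s23
    generalize sig k (2 + 1) = u at *
    generalize sig k (n + 1) = v at *
    rw [abs_of_pos (by linarith : 0 < u + 1), abs_of_pos (by linarith : 0 < v + 1),
      abs_of_neg h3n]
    rcases lt_or_gt_of_ne h0 with hv | hv
    · rw [abs_of_neg hv, div_le_div_iff₀ (by linarith) (by linarith)]
      nlinarith
    · rw [abs_of_pos hv, div_le_div_iff₀ (by linarith) hv]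
      nlinarith

lemma least_all (k : ℕ) (hk : 1 ≤ k) (i : ℕ) (hi : i < 2 ^ k) :
    ∃ N, 4 ≤ 2 ^ k * N + i ∧ ∀ n, 4 ≤ 2 ^ k * n + i →
      rho (2 ^ k * N + i + 1) ≤ rho (2 ^ k * n + i + 1) := by
  rcases Nat.even_or_odd' k with ⟨j, rfl | rfl⟩
  · exact least_even (by omega) i hi
  · have hp : 2 ^ (2 * (j + 1)) = 2 ^ (2 * j + 1) * 2 := by ring
    obtain ⟨N₁, h1, m1⟩ := least_even (k := j + 1) (by omega) i (by omega)
    obtain ⟨N₂, h2, m2⟩ := least_even (k := j + 1) (by omega) (i + 2 ^ (2 * j + 1)) (by omega)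
    have e1 : ∀ n, 2 ^ (2 * (j + 1)) * n + i = 2 ^ (2 * j + 1) * (2 * n) + i := by
      intro n; rw [hp]; ring
    have e2 : ∀ n, 2 ^ (2 * (j + 1)) * n + (i + 2 ^ (2 * j + 1)) =
        2 ^ (2 * j + 1) * (2 * n + 1) + i := by
      intro n; rw [hp]; ring
    simp only [e1] at h1 m1
    simp only [e2] at h2 m2
    rcases le_total (rho (2 ^ (2 * j + 1) * (2 * N₁) + i + 1))
      (rho (2 ^ (2 * j + 1) * (2 * N₂ + 1) + i + 1)) with h | h
    · refine ⟨2 * N₁, h1, fun n hn => ?_⟩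
      rcases Nat.even_or_odd' n with ⟨u, rfl | rfl⟩
      · exact m1 u hn
      · exact h.trans (m2 u hn)
    · refine ⟨2 * N₂ + 1, h2, fun n hn => ?_⟩
      rcases Nat.even_or_odd' n with ⟨u, rfl | rfl⟩
      · exact h.trans (m1 u hn)
      · exact m2 u hn

lemma rho_zero {k : ℕ} (hk : 1 ≤ k) (n : ℕ) :
    rho (2 ^ (2 * k) * n + 0 + 1) = 1 / (sig k n + 1) := by
  obtain ⟨a, b, c, H⟩ := inv_exists k hk
  obtain ⟨D, -⟩ := dyn hk H
  have hL := four_le hk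
  have g1 : G 1 0 (0 + 2) = 1 := by
    show t 0 * 1 + 0 = 1
    rw [t_zero]; norm_num
  have g2 : G 0 1 (0 + 2) = 1 := by
    show t 0 * 0 + 1 = 1
    norm_num
  have g3 : G 1 0 (0 + 3) = 0 := by
    show t 1 * (t 0 * 1 + 0) + 1 = 0
    rw [t_zero, t1]; norm_num
  have g4 : G 0 1 (0 + 3) = -1 := by
    show t 1 * (t 0 * 0 + 1) + 0 = -1
    rw [t1]; norm_num
  rw [rho_block hk n 0 (by omega), g1, g2, g3, g4]
  have h0 : 0 ≤ sig k n + 1 := by linarith [(D.mem n).1]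
  push_cast
  rw [zero_mul, zero_add, one_mul, abs_neg, abs_one, abs_of_nonneg h0]

lemma rho_two (n : ℕ) : rho (2 ^ (2 * 1) * n + 2 + 1) = (sig 1 n + 1) / (sig 1 n + 2) := by
  obtain ⟨D, -⟩ := dyn le_rfl inv_one
  have g1 : G 1 0 (2 + 2) = 1 := by
    rw [show 2 + 2 = 4 * (0 + 1) from rfl, (four 1 0 0).1, t_zero]; rfl
  have g2 : G 0 1 (2 + 2) = 2 := by
    rw [show 2 + 2 = 4 * (0 + 1) from rfl, (four 0 1 0).1, t_zero]; rfl
  have g3 : G 1 0 (2 + 3) = 1 := by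
    rw [show 2 + 3 = 4 * (0 + 1) + 1 from rfl, (four 1 0 0).2.1, t_zero]; rfl
  have g4 : G 0 1 (2 + 3) = 1 := by
    rw [show 2 + 3 = 4 * (0 + 1) + 1 from rfl, (four 0 1 0).2.1, t_zero]; rfl
  rw [rho_block le_rfl n 2 (by norm_num), g1, g2, g3, g4]
  have h0 : 0 ≤ sig 1 n + 1 := by linarith [(D.mem n).1]
  push_cast
  rw [one_mul, abs_of_nonneg h0, abs_of_nonneg (by linarith : 0 ≤ sig 1 n + 2)]

lemma Cinf_eq {k i N : ℕ} (h1 : 4 ≤ 2 ^ k * N + i)
    (h2 : ∀ n, 4 ≤ 2 ^ k * n + i → rho (2 ^ k * N + i + 1) ≤ rho (2 ^ k * n + i + 1)) :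
    Cinf k i = rho (2 ^ k * N + i + 1) := by
  apply IsLeast.csInf_eq
  refine ⟨⟨N, h1, rfl⟩, ?_⟩
  rintro x ⟨n, hn, rfl⟩
  exact_mod_cast h2 n hn

lemma Clim_ge {k i : ℕ} {B c : ℝ} (hB : ∀ᶠ n : ℕ in atTop, (rho (2 ^ k * n + i + 1) : ℝ) ≤ B)
    (hc : ∀ᶠ n : ℕ in atTop, c ≤ (rho (2 ^ k * n + i + 1) : ℝ)) : c ≤ Clim k i :=
  le_liminf_of_le (isBoundedUnder_of_eventually_le hB).isCoboundedUnder_ge hc

end Pool.Agent.Run7.h771.TMQ
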